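import Pool.Agent.Helper31.TW.St2

/-!
# Project TW (MP_434a84_lc), module CS2: two walls without jumps, active at the same point.
-/

set_option autoImplicit false

namespace Pool.Agent.Helper4.TW

open Pool.Agent.Helper31.TW

variable {n : ℕ}

private theorem dadd (α x y : Fin n → ℤ) : dot α (x + y) = dot α x + dot α y := by
  simp only [dot, Pi.add_apply, mul_add, Finset.sum_add_distrib]

private theorem dsmul (α x : Fin n → ℤ) (s : ℤ) : dot α (s • x) = s * dot α x := by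
  simp only [dot, Pi.smul_apply, smul_eq_mul, Finset.mul_sum]
  exact Finset.sum_congr rfl fun i _ => by ring

private theorem dneg (α x : Fin n → ℤ) : dot α (-x) = -dot α x := by
  simp only [dot, Pi.neg_apply, mul_neg, Finset.sum_neg_distrib]

private theorem hgt (hEV1 : StEV1) {M : (Fin n → ℤ) → Prop} {𝓐 : Finset (Fin n → ℤ)} {K : ℕ}
    (hd : Dep M 𝓐 K) {α y : Fin n → ℤ} (hy : Gen 𝓐 α y) (z z' : Fin n → ℤ)
    (h : dot α z = dot α z') : Ev M z y ↔ Ev M z' y := by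
  refine (hEV1 n M 𝓐 K hd).2.2 z z' y y (fun _ _ => rfl) fun γ hγ h0 => ?_
  by_cases hγα : γ = α
  · rw [hγα]; exact h
  · exact absurd h0 (hy.2.2 γ hγ hγα)

private theorem partA (hEV1 : StEV1) (hEV2 : StEV2) (hACT : StACT) {M : (Fin n → ℤ) → Prop}
    {𝓐 : Finset (Fin n → ℤ)} {K : ℕ} (hC : Ctx M 𝓐 K) {α : Fin n → ℤ} (hα : α ∈ 𝓐)
    {y w2 x : Fin n → ℤ} (hy : Gen 𝓐 α y) (hw : dot α w2 = 1) (hJ : ¬ Jmp M 𝓐 α)
    (hA : Act M 𝓐 α x) :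
    ∃ s1 : ℕ, ∀ s : ℤ, (s1 : ℤ) ≤ s → ¬ (Ev M (x + s • w2) y ↔ Ev M x y) := by
  obtain ⟨A1, A2, A3, A4, A5, A6⟩ := hACT n M 𝓐 K hC α hα
  obtain ⟨s0, h0⟩ := A6 hJ y w2 hy hw
  obtain ⟨s1, h1⟩ := (hEV2 n M 𝓐 K hC.dep).2 x y w2
  obtain ⟨s2, h2⟩ := (hEV2 n M 𝓐 K hC.dep).2 x y (-w2)
  obtain ⟨h, hh⟩ : ∃ h : ℤ, h = dot α x := ⟨_, rfl⟩
  obtain ⟨S, hS⟩ : ∃ S : ℕ, S = s0 + s1 + s2 + 2 * h.natAbs := ⟨_, rfl⟩
  have e1 : Ev M (x + (S : ℤ) • w2) y ↔ Ev M (x + (2 * h + (S : ℤ)) • (-w2)) y := by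
    have a1 := hgt hEV1 hC.dep hy (x + (S : ℤ) • w2) ((h + (S : ℤ)) • w2)
      (by rw [dadd, dsmul, dsmul, hw, hh]; ring)
    have a2 := h0 (h + (S : ℤ)) (by omega)
    have a3 := hgt hEV1 hC.dep hy (-((h + (S : ℤ)) • w2)) (x + (2 * h + (S : ℤ)) • (-w2))
      (by rw [dneg, dadd, dsmul, dsmul, dneg, hw, ← hh]; ring)
    exact a1.trans (a2.trans a3)
  obtain ⟨s, hs, hne⟩ := A1 x y w2 hA hy hw S
  have e2 : ¬ (Ev M (x + (S : ℤ) • w2) y ↔ Ev M x y) := by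
    intro hc
    rcases le_or_gt 0 s with hs0 | hs0
    · rw [abs_of_nonneg hs0] at hs
      exact hne ((h1 s S (by omega) (by omega)).trans hc)
    · rw [abs_of_neg hs0] at hs
      have a := h2 (-s) (2 * h + (S : ℤ)) (by omega) (by omega)
      have e3 : x + (-s) • (-w2) = x + s • w2 := by rw [neg_smul_neg]
      rw [e3] at a
      exact hne (a.trans (e1.symm.trans hc))
  refine ⟨s1, fun s hs hc => e2 ?_⟩
  exact (h1 S s (by omega) hs).trans hc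

private theorem dvd_fac {C : ℕ} {d : ℤ} (hd : d ≠ 0) (h : d.natAbs ≤ C) :
    d ∣ ((Nat.factorial C : ℕ) : ℤ) := by
  have h1 : d.natAbs ∣ Nat.factorial C := Nat.dvd_factorial (Int.natAbs_pos.mpr hd) h
  have h2 : ((d.natAbs : ℕ) : ℤ) ∣ ((Nat.factorial C : ℕ) : ℤ) := Int.natCast_dvd_natCast.mpr h1
  exact Int.natAbs_dvd.mp h2

theorem hCS2 (hEV1 : StEV1) (hEV2 : StEV2) (hACT : StACT) (hGNR : StGNR) (hSH2 : StSH2) :
    StCS2 := by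
  intro n M 𝓐 K hC α hα β hβ hαβ x y0 hpos hα0 hβ0 hJα hJβ hAα hAβ
  obtain ⟨A1, A2, A3, A4, A5, A6⟩ := hACT n M 𝓐 K hC α hα
  obtain ⟨B1, B2, B3, B4, B5, B6⟩ := hACT n M 𝓐 K hC β hβ
  obtain ⟨w1, hw1, hw1', N0, hN0⟩ := hGNR n 𝓐 hC.nrm α hα y0 hpos hα0
  obtain ⟨w3, hw3, hw3', N3, hN3⟩ := hGNR n 𝓐 hC.nrm β hβ y0 hpos hβ0
  have hbw : dot β w1 ≠ 0 := hw1' β hβ (Ne.symm hαβ) hβ0
  obtain ⟨w2, hw2⟩ := hC.nrm.1 α hα
  have hGβ := hN3 N3 le_rfl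
  obtain ⟨yβ, hyβ⟩ : ∃ y, y = (N3 : ℤ) • y0 + w3 := ⟨_, rfl⟩
  rw [← hyβ] at hGβ
  obtain ⟨N1, hN1⟩ := (hEV2 n M 𝓐 K hC.dep).1 y0 w1
  have hGα := hN0 ((N0 + N1 : ℕ) : ℤ) (by push_cast; omega)
  have hP := hN1 ((N0 + N1 : ℕ) : ℤ) (by push_cast; omega)
  obtain ⟨yα, hyα⟩ : ∃ y, y = ((N0 + N1 : ℕ) : ℤ) • y0 + w1 := ⟨_, rfl⟩
  rw [← hyα] at hGα
  simp only [← hyα] at hP
  have fα : Ev M x y0 ↔ Ev M x yα := A3 x yα y0 hAα hGα hpos hα0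
  have fβ : Ev M x y0 ↔ Ev M x yβ := B3 x yβ y0 hAβ hGβ hpos hβ0
  obtain ⟨S1, hS1⟩ := partA hEV1 hEV2 hACT hC hα hGα hw2 hJα hAα
  obtain ⟨B, hB⟩ := hSH2 n M 𝓐 K hC x y0 w1 w2 hpos
  obtain ⟨Cc, hCc⟩ : ∃ Cc : ℕ, Cc = B + B * (dot β w1).natAbs := ⟨_, rfl⟩
  obtain ⟨G, hG⟩ : ∃ G : ℤ, G = ((Nat.factorial Cc : ℕ) : ℤ) := ⟨_, rfl⟩
  have hG1 : 1 ≤ G := by
    rw [hG]
    exact_mod_cast Nat.factorial_pos Cc
  -- the second coordinate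
  obtain ⟨j, hj⟩ : ∃ j : ℤ, j = G * S1 := ⟨_, rfl⟩
  have hjS : (S1 : ℤ) ≤ j := by
    rw [hj]
    nlinarith [Int.natCast_nonneg S1]
  have hv1 := hS1 j hjS
  obtain ⟨s3, hs3⟩ := hP (x + j • w2)
  obtain ⟨i, hi⟩ : ∃ i : ℤ, i = G * s3 := ⟨_, rfl⟩
  have hiS : (s3 : ℤ) ≤ i := by
    rw [hi]
    nlinarith [Int.natCast_nonneg s3]
  have hv2 : ¬ (Ev M (x + i • w1 + j • w2) y0 ↔ Ev M x y0) := by
    have e1 : x + i • w1 + j • w2 = x + j • w2 + i • w1 := by abel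
    rw [e1, hs3 i hiS, fα]
    exact hv1
  obtain ⟨p, hpB, ⟨k0, hk0⟩, hp0, hps⟩ := hB i j
  -- the point x'' with the parameter s
  have key : ∀ s : ℤ, ¬ (Ev M (x + i • w1 + j • w2 + s • (((p 0 : ℤ) - (p 2 : ℤ)) • w1 +
      ((p 1 : ℤ) - (p 2 : ℤ)) • w2)) y0 ↔ Ev M x y0) := fun s => by
    rw [hps s]
    exact hv2
  by_cases h12 : (p 1 : ℤ) - (p 2 : ℤ) = 0
  · have h02 : (p 0 : ℤ) - (p 2 : ℤ) ≠ 0 := by
      intro h
      apply hp0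
      have h1 : p 1 = p 2 := by omega
      have h2 : p 0 = p 2 := by omega
      have h3 : p 2 = 0 := by
        fin_cases k0
        · exact h2.symm.trans hk0
        · exact h1.symm.trans hk0
        · exact hk0
      funext k
      fin_cases k
      · exact h2.trans h3
      · exact h1.trans h3
      · exact h3
    have hne : ((p 0 : ℤ) - (p 2 : ℤ)) * dot β w1 ≠ 0 := mul_ne_zero h02 hbw
    have hle : (((p 0 : ℤ) - (p 2 : ℤ)) * dot β w1).natAbs ≤ Cc := by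
      rw [Int.natAbs_mul, hCc]
      have h1 : ((p 0 : ℤ) - (p 2 : ℤ)).natAbs ≤ B := by
        have := hpB 0
        have := hpB 2
        omega
      have h2 := Nat.mul_le_mul_right (dot β w1).natAbs h1
      omega
    have hdv := dvd_fac hne hle
    rw [← hG] at hdv
    have hdv2 : ((p 0 : ℤ) - (p 2 : ℤ)) * dot β w1 ∣ i * dot β w1 + j * dot β w2 := by
      apply dvd_add
      · rw [hi]
        exact Dvd.dvd.mul_right (Dvd.dvd.mul_right hdv _) _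
      · rw [hj]
        exact Dvd.dvd.mul_right (Dvd.dvd.mul_right hdv _) _
    obtain ⟨c, hc⟩ := hdv2
    apply key (-c)
    have hx : dot β (x + i • w1 + j • w2 + (-c) • (((p 0 : ℤ) - (p 2 : ℤ)) • w1 +
      ((p 1 : ℤ) - (p 2 : ℤ)) • w2)) = dot β x := by
      rw [h12]
      simp only [dadd, dsmul]
      linear_combination hc
    have hA := B2 x _ hAβ hx
    exact (B3 _ yβ y0 hA hGβ hpos hβ0).trans ((hgt hEV1 hC.dep hGβ _ x hx).trans fβ.symm)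
  · have hle : ((p 1 : ℤ) - (p 2 : ℤ)).natAbs ≤ Cc := by
      have := hpB 1
      have := hpB 2
      rw [hCc]
      have h2 := Nat.zero_le (B * (dot β w1).natAbs)
      omega
    have hdv := dvd_fac h12 hle
    rw [← hG] at hdv
    have hdv2 : ((p 1 : ℤ) - (p 2 : ℤ)) ∣ j := by
      rw [hj]
      exact Dvd.dvd.mul_right hdv _
    obtain ⟨c, hc⟩ := hdv2
    apply key (-c)
    have hx : dot α (x + i • w1 + j • w2 + (-c) • (((p 0 : ℤ) - (p 2 : ℤ)) • w1 +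
      ((p 1 : ℤ) - (p 2 : ℤ)) • w2)) = dot α x := by
      simp only [dadd, dsmul, hw1, hw2]
      linear_combination hc
    have hA := A2 x _ hAα hx
    exact (A3 _ yα y0 hA hGα hpos hα0).trans ((hgt hEV1 hC.dep hGα _ x hx).trans fα.symm)

end Pool.Agent.Helper4.TW
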